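import Pool.Agent.H148Z.Kirch2

set_option autoImplicit false

namespace Pool.Agent.Results.MP_ff3a4f_co.AFractionalKirchberger

open Pool.Agent.H148Z.Kirch Filter Topology

open Classical in
/-- Positive-fraction Kirchberger theorem. General position is needed only when there are fewer
than `d + 2` points in all. -/
theorem result (d : ℕ) : ∃ g : ℝ → ℝ, Tendsto g (𝓝[>] 0) (𝓝 0) ∧ ∀ ε : ℝ, 0 < ε →
    ∀ (N : ℕ) (A B : Finset (Pt d)), Disjoint A B → A.card = N → B.card = N →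
      (GenPos (A ∪ B) ∨ d + 2 ≤ 2 * N) →
      (1 - ε) * ((2 * N).choose (d + 2) : ℝ) ≤ (goodSets A B).card →
      ∃ A' ⊆ A, ∃ B' ⊆ B, Separated A' B' ∧ (1 - g ε) * N ≤ (A'.card : ℝ) ∧
        (1 - g ε) * N ≤ (B'.card : ℝ) :=
  main d

end Pool.Agent.Results.MP_ff3a4f_co.AFractionalKirchberger
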